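import Pool.Agent.PX.Stmts
import Pool.Agent.Helper19_PW.LOC

set_option autoImplicit false

/-!
# Squad PX, row LOX: the filtration at a point (helper79; edit of `Helper19_PW/LOC.lean`)
-/

namespace Pool.Agent.PX.H79

open MvPolynomial Pool.Agent.PX Pool.Agent.PW.H19
open Pool.Agent.RS (FF io io_injective)
open Pool.Agent.PW (dd JUN RR FG Robust VV Piv del eul Ph Zer Free)

/-- Row LOX. -/
theorem lox (dlx : DlxStmt) : LoxStmt := by
  intro E D _ _ _ _ _ ρ c0 k y ζ J1 J Om _ e hJJ he hJ hK hM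
  have eulS : Pool.Agent.PW.EulStmt := Pool.Agent.PW.H20.eul
  have der : Pool.Agent.PW.DerStmt := Pool.Agent.PW.aDer
  let φ : MvPolynomial ℕ E →+* MvPolynomial ℕ D :=
    (Ph ζ J : MvPolynomial ℕ E →ₐ[E] MvPolynomial ℕ D).toRingHom
  have hφ : ∀ a, φ a = Ph ζ J a := fun a => rfl
  let I : Ideal (MvPolynomial ℕ D) := Ideal.span (Set.range fun a => Ph ζ J (y a))
  have hI : ∀ x ∈ I, e x = 0 := by
    intro x hx
    have h1 : I ≤ RingHom.ker e := by
      refine Ideal.span_le.2 ?_
      rintro _ ⟨a, rfl⟩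
      exact he a
    exact h1 hx
  -- the derivations
  have hder : ∀ i ∈ J1, ∀ (j : ℕ) (a b : MvPolynomial ℕ E) (s : MvPolynomial ℕ D),
      s * φ a ∈ I ^ (j + 1) → s ^ 2 * φ (b * pderiv i a - a * pderiv i b) ∈ I ^ j := by
    intro i hi j a b s h
    let δ : DZ (MvPolynomial ℕ D) :=
      toZ (pderiv i : Derivation D (MvPolynomial ℕ D) (MvPolynomial ℕ D))
    have hδ : ∀ f, δ f = pderiv i f := fun f => rfl
    have h1 : δ (s * φ a) ∈ I ^ j := der_pow δ I j _ h
    have h2 : s * φ a ∈ I ^ j := Ideal.pow_le_pow_right (Nat.le_succ j) h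
    have h3 : δ (s * φ a) = s * δ (φ a) + φ a * δ s := by
      rw [Derivation.leibniz, smul_eq_mul, smul_eq_mul]
    have h4 : φ (pderiv i a) = δ (φ a) := by
      rw [hφ, hφ, hδ, ph_pderiv ζ J i (hJJ hi)]
    have e1 : s ^ 2 * φ (b * pderiv i a - a * pderiv i b) =
        (φ b * s) * δ (s * φ a) - (φ b * δ s) * (s * φ a) -
          (s * φ (pderiv i b)) * (s * φ a) := by
      rw [map_sub, map_mul, map_mul, h4, h3]
      ring
    rw [e1]
    exact Ideal.sub_mem _ (Ideal.sub_mem _ (Ideal.mul_mem_left _ _ h1)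
      (Ideal.mul_mem_left _ _ h2)) (Ideal.mul_mem_left _ _ h2)
  refine ⟨Fl φ e I,
    { zero := fl_zero φ e I
      add := fl_add φ e I
      mul := fl_mul φ e I
      mono := fl_mono φ e I
      poly := fl_poly φ e I
      mem := fun a => fl_mem φ e I _ (Ideal.subset_span ⟨a, rfl⟩)
      der0 := ?_
      der := ?_
      eul := ?_
      unitJ := fun h h0 hv => fl_inv φ e I h (hJ h h0 hv)
      unitK := fun h h0 hv => fl_inv φ e I h (hK h h0 hv)
      unitM := fun g h0 hv => fl_inv φ e I g (hM g h0 hv)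
      proper := fl_proper φ e I hI }, ?_⟩
  · intro i hi w hw
    obtain ⟨a, b, rfl, hb, s, hs, h⟩ := hw
    rw [dd_div der i a b (io_ne φ e hb)]
    refine fl_of φ e I (s := 1) ?_ ?_ ?_
    · rw [map_pow, map_pow]
      exact pow_ne_zero _ hb
    · rw [map_one]
      exact one_ne_zero
    · rw [pow_zero, Ideal.one_eq_top]
      exact Submodule.mem_top
  · intro i hi j w hw
    obtain ⟨a, b, rfl, hb, s, hs, h⟩ := hw
    rw [dd_div der i a b (io_ne φ e hb)]
    refine fl_of φ e I (s := s ^ 2) ?_ ?_ (hder i hi j a b s h)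
    · rw [map_pow, map_pow]
      exact pow_ne_zero _ hb
    · rw [map_pow]
      exact pow_ne_zero _ hs
  · intro z hpiv hz hzv j w hj hw
    obtain ⟨a0, b0, rfl, hb, s, hs, h⟩ := hw
    obtain ⟨hd1, hd2⟩ := dlx E ρ y z hpiv
    obtain ⟨Δ, hΔ0, hΔv, hn⟩ := hd2 J1 hzv
    choose n hnv hn using hn
    have hΔe : e (φ Δ) ≠ 0 := hJ Δ hΔ0 hΔv
    have hΔi := io_ne φ e hΔe
    have hjE : (j : E) ≠ 0 := Nat.cast_ne_zero.2 hj.ne'
    have hjA : (j : MvPolynomial ℕ E) = C (j : E) := by
      rw [map_natCast]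
    have hj0 : (j : MvPolynomial ℕ E) ≠ 0 := by
      rw [hjA]
      intro h0
      exact hjE ((C_eq_zero (σ := ℕ)).1 h0)
    have hje : e (φ (j : MvPolynomial ℕ E)) ≠ 0 := by
      refine hJ _ hj0 ?_
      rw [hjA, vars_C]
      exact Finset.empty_subset _
    have hjF : (j : FF E) ≠ 0 := by
      have := io_ne φ e hje
      rw [map_natCast] at this
      exact this
    rw [eul_div der y z n Δ hΔi hn j hjF a0 b0 (io_ne φ e hb)]
    have hzJ : ∀ b, z b ∈ J := fun b => hJJ (hz b)
    refine fl_of φ e I (s := s ^ 2) ?_ ?_ ?_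
    · rw [map_mul, map_mul, map_pow, map_mul, map_mul, map_pow]
      exact mul_ne_zero (mul_ne_zero hje hΔe) (pow_ne_zero _ hb)
    · rw [map_pow]
      exact pow_ne_zero _ hs
    · have hδ : ∀ a a', dl ζ J (n a) z (Ph ζ J (y a')) = if a = a' then φ Δ else 0 := by
        intro a a'
        have h1 := hd1 a a'
        rw [del_ap] at h1
        have h2 : io E (∑ b, n a b * pderiv (z b) (y a')) = io E (if a = a' then Δ else 0) := by
          rw [map_sum]
          have h3 : ∀ b, io E (n a b * pderiv (z b) (y a')) =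
              io E Δ * ((VV y z)⁻¹ a b * dd (z b) (io E (y a'))) := by
            intro b
            rw [map_mul, hn, (der E).1]
            field_simp
          rw [Finset.sum_congr rfl fun b _ => h3 b, ← Finset.mul_sum, h1]
          by_cases haa : a = a'
          · rw [if_pos haa, if_pos haa, mul_one]
          · rw [if_neg haa, if_neg haa, mul_zero, map_zero]
        have h4 := io_injective h2
        rw [dl_ap]
        have h5 : ∑ b, Ph ζ J (n a b) * pderiv (z b) (Ph ζ J (y a')) =
            Ph ζ J (∑ b, n a b * pderiv (z b) (y a')) := by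
          rw [map_sum]
          refine Finset.sum_congr rfl fun b _ => ?_
          rw [map_mul, ph_pderiv ζ J (z b) (hzJ b)]
        rw [h5, h4]
        by_cases haa : a = a'
        · rw [if_pos haa, if_pos haa]
          rfl
        · rw [if_neg haa, if_neg haa, map_zero]
      have hk := key eulS (fun a => Ph ζ J (y a)) (φ Δ) (fun a => dl ζ J (n a) z) hδ s (φ a0)
        (φ b0) j h
      have e1 : φ ((j : MvPolynomial ℕ E) * Δ * b0 * a0 - b0 * NN y n z a0 + a0 * NN y n z b0) =
          (j : MvPolynomial ℕ D) * φ Δ * φ b0 * φ a0 -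
            φ b0 * Nf (fun a => Ph ζ J (y a)) (fun a => dl ζ J (n a) z) (φ a0) +
            φ a0 * Nf (fun a => Ph ζ J (y a)) (fun a => dl ζ J (n a) z) (φ b0) := by
        rw [map_add, map_sub, map_mul, map_mul, map_mul, map_mul, map_mul, map_natCast,
          hφ (NN y n z a0), hφ (NN y n z b0), ph_NN ζ J y n z hzJ, ph_NN ζ J y n z hzJ]
        rfl
      rw [e1]
      exact hk
  · intro W hW0 hW j
    obtain ⟨a, b, hWab, hb, ha⟩ := hW0
    obtain ⟨a', b', rfl, hb', s, hs, h⟩ := hW
    have hbi : io E b ≠ 0 := by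
      intro h0
      apply hb
      have : b = 0 := by
        apply io_injective
        rw [h0, map_zero]
      rw [this, map_zero]
    have hb'i := io_ne φ e hb'
    have h1 : a' * b = a * b' := by
      apply io_injective
      rw [map_mul, map_mul]
      exact (div_eq_div_iff hb'i hbi).1 hWab
    have h2 : φ a' * φ b = 0 := by
      rw [← map_mul, h1, map_mul, hφ a, ha, zero_mul]
    have h3 : φ a' = 0 := (mul_eq_zero.1 h2).resolve_right hb
    refine fl_of φ e I (s := 1) hb' ?_ ?_
    · rw [map_one]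
      exact one_ne_zero
    · rw [h3, mul_zero]
      exact Ideal.zero_mem _

end Pool.Agent.PX.H79
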